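import Pool.Agent.V7H32.UO.Defs

/-!
# Places above prime numbers, cofinite sets of prime numbers, diagonal choice
-/

set_option autoImplicit false

open NumberField IsDedekindDomain

namespace Pool.Agent.V7H32.UO

section places

variable (K : NF)

/-- Every place lies above a prime number. -/
lemma exists_over (v : K.Place) : ∃ p : ℕ, p.Prime ∧ K.Over p v := by
  have h1 : Ideal.absNorm v.asIdeal ≠ 1 := by
    intro h
    exact v.isPrime.ne_top (Ideal.absNorm_eq_one_iff.1 h)
  have h2 : ((Ideal.absNorm v.asIdeal : ℕ) : 𝓞 K.F) ∈ v.asIdeal := Ideal.absNorm_mem v.asIdeal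
  have h0 : Ideal.absNorm v.asIdeal ≠ 0 := by
    intro h
    exact v.ne_bot (Ideal.absNorm_eq_zero_iff.1 h)
  have h3 : ∀ n : ℕ, n ≠ 0 → n ≠ 1 → ((n : ℕ) : 𝓞 K.F) ∈ v.asIdeal →
      ∃ p : ℕ, p.Prime ∧ K.Over p v := by
    intro n
    induction n using Nat.recOnMul with
    | zero => intro h; exact absurd rfl h
    | one => intro _ h; exact absurd rfl h
    | prime p hp => intro _ _ h; exact ⟨p, hp, h⟩
    | mul a b iha ihb =>
      intro hab hab1 h
      have ha : a ≠ 0 := fun h => hab (by rw [h, zero_mul])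
      have hb : b ≠ 0 := fun h => hab (by rw [h, mul_zero])
      rw [Nat.cast_mul] at h
      rcases v.isPrime.mem_or_mem h with h | h
      · refine iha ha (fun h' => ?_) h
        rw [h', Nat.cast_one] at h
        exact v.isPrime.ne_top ((Ideal.eq_top_iff_one _).2 h)
      · refine ihb hb (fun h' => ?_) h
        rw [h', Nat.cast_one] at h
        exact v.isPrime.ne_top ((Ideal.eq_top_iff_one _).2 h)
  exact h3 _ h0 h1 h2

/-- A place lies above at most one prime number. -/
lemma over_unique {p q : ℕ} (hp : p.Prime) (hq : q.Prime) {v : K.Place} (h1 : K.Over p v)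
    (h2 : K.Over q v) : p = q := by
  by_contra hne
  have hc : Nat.Coprime p q := (Nat.coprime_primes hp hq).2 hne
  have h3 : IsCoprime (p : ℤ) (q : ℤ) := Nat.isCoprime_iff_coprime.2 hc
  obtain ⟨a, b, hab⟩ := h3
  have h4 : ((a * p + b * q : ℤ) : 𝓞 K.F) ∈ v.asIdeal := by
    push_cast
    exact Ideal.add_mem _ (Ideal.mul_mem_left _ _ h1) (Ideal.mul_mem_left _ _ h2)
  rw [hab, Int.cast_one] at h4
  exact v.isPrime.ne_top ((Ideal.eq_top_iff_one _).2 h4)

/-- There is a place above every prime number. -/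
lemma exists_above {p : ℕ} (hp : p.Prime) : ∃ v : K.Place, K.Over p v := by
  have h1 : ¬ IsUnit ((p : ℕ) : 𝓞 K.F) := by
    intro h
    have h2 : IsUnit (Algebra.norm ℤ ((p : ℕ) : 𝓞 K.F)) := h.map _
    have h3 : Algebra.norm ℤ ((p : ℕ) : 𝓞 K.F) = (p : ℤ) ^ Module.finrank ℤ (𝓞 K.F) := by
      have := Algebra.norm_algebraMap (S := 𝓞 K.F) (p : ℤ)
      simpa using this
    rw [h3] at h2
    have h4 : Module.finrank ℤ (𝓞 K.F) ≠ 0 := by
      rw [RingOfIntegers.rank]
      exact Module.finrank_pos.ne'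
    rw [isUnit_pow_iff h4] at h2
    have h5 := Int.isUnit_iff_natAbs_eq.1 h2
    rw [Int.natAbs_natCast] at h5
    exact hp.one_lt.ne' h5
  obtain ⟨M, hM, hpM⟩ := exists_max_ideal_of_mem_nonunits h1
  have hne : M ≠ ⊥ := by
    rintro rfl
    have h6 : ((p : ℕ) : 𝓞 K.F) = 0 := hpM
    exact hp.ne_zero (Nat.cast_eq_zero.1 h6)
  exact ⟨⟨M, hM.isPrime, hne⟩, hpM⟩

end places

/-- There is exactly one place of the field of rational numbers above a prime number. -/
lemma rat_unique {p : ℕ} (hp : p.Prime) {v w : NF.rat.Place} (hv : NF.rat.Over p v)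
    (hw : NF.rat.Over p w) : v = w := by
  have e : 𝓞 NF.rat.F ≃+* ℤ := Rat.ringOfIntegersEquiv
  have h1 : Prime ((p : ℕ) : 𝓞 NF.rat.F) := by
    rw [← MulEquiv.prime_iff e.toMulEquiv]
    have h2 : e.toMulEquiv ((p : ℕ) : 𝓞 NF.rat.F) = (p : ℤ) := map_natCast e p
    rw [h2]
    exact Nat.prime_iff_prime_int.1 hp
  have h3 : ∀ u : NF.rat.Place, NF.rat.Over p u →
      u.asIdeal = Ideal.span {((p : ℕ) : 𝓞 NF.rat.F)} := by
    intro u hu
    have h4 : (Ideal.span {((p : ℕ) : 𝓞 NF.rat.F)}).IsPrime :=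
      (Ideal.span_singleton_prime h1.ne_zero).2 h1
    have h5 : (Ideal.span {((p : ℕ) : 𝓞 NF.rat.F)}).IsMaximal :=
      h4.isMaximal (by rw [Ne, Ideal.span_singleton_eq_bot]; exact h1.ne_zero)
    exact (h5.eq_of_le u.isPrime.ne_top ((Ideal.span_singleton_le_iff_mem _).2 hu)).symm
  exact HeightOneSpectrum.ext (by rw [h3 v hv, h3 w hw])

section almostAll

lemma AlmostAll.and {P Q : ℕ → Prop} (hP : AlmostAll P) (hQ : AlmostAll Q) :
    AlmostAll fun p => P p ∧ Q p := by
  refine (hP.union hQ).subset ?_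
  rintro p ⟨hp, h⟩
  rw [not_and_or] at h
  rcases h with h | h
  · exact Or.inl ⟨hp, h⟩
  · exact Or.inr ⟨hp, h⟩

lemma AlmostAll.mono {P Q : ℕ → Prop} (hP : AlmostAll P) (h : ∀ p, p.Prime → P p → Q p) :
    AlmostAll Q :=
  hP.subset fun p hp => ⟨hp.1, fun h' => hp.2 (h p hp.1 h')⟩

lemma almostAll_of {P : ℕ → Prop} (h : ∀ p, p.Prime → P p) : AlmostAll P := by
  have : {p : ℕ | p.Prime ∧ ¬ P p} = ∅ := by
    ext p
    simp only [Set.mem_ofPred_eq, Set.mem_empty_iff_false, iff_false, not_and, not_not]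
    exact h p
  unfold AlmostAll
  rw [this]
  exact Set.finite_empty

end almostAll

/-- The diagonal choice: if for every `N` infinitely many prime numbers satisfy `G 0`, ...,
`G N`, then there is an infinite set of prime numbers almost all members of which satisfy
`G k`, for every `k`. -/
lemma diagonal (G : ℕ → ℕ → Prop)
    (h : ∀ N, {p : ℕ | p.Prime ∧ ∀ k ≤ N, G k p}.Infinite) :
    ∃ S : Set ℕ, S.Infinite ∧ (∀ p ∈ S, p.Prime) ∧ ∀ k, {p ∈ S | ¬ G k p}.Finite := by
  have h1 : ∀ N m : ℕ, ∃ p, m < p ∧ p.Prime ∧ ∀ k ≤ N, G k p := by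
    intro N m
    obtain ⟨p, hp, hm⟩ := (h N).exists_gt m
    exact ⟨p, hm, hp⟩
  choose f hf1 hf2 hf3 using h1
  let s : ℕ → ℕ := fun n => Nat.rec (f 0 0) (fun n p => f (n + 1) p) n
  have hs : ∀ n, s (n + 1) = f (n + 1) (s n) := fun n => rfl
  have hmono : StrictMono s := strictMono_nat_of_lt_succ fun n => by
    rw [hs]
    exact hf1 _ _
  have hG : ∀ n, ∀ k ≤ n, G k (s n) := by
    intro n
    cases n with
    | zero => exact hf3 0 0
    | succ n => rw [hs]; exact hf3 _ _
  have hP : ∀ n, (s n).Prime := by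
    intro n
    cases n with
    | zero => exact hf2 0 0
    | succ n => rw [hs]; exact hf2 _ _
  refine ⟨Set.range s, Set.infinite_range_of_injective hmono.injective, ?_, fun k => ?_⟩
  · rintro _ ⟨n, rfl⟩
    exact hP n
  · refine ((Finset.range k).finite_toSet.image s).subset ?_
    rintro _ ⟨⟨n, rfl⟩, hn⟩
    refine ⟨n, ?_, rfl⟩
    rw [Finset.mem_coe, Finset.mem_range]
    by_contra hk
    exact hn (hG n k (by omega))

end Pool.Agent.V7H32.UO
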