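import Mathlib

/-!
# Ordinary primes: projective varieties over number fields, polygons and the known facts
-/

set_option autoImplicit false

open CategoryTheory AlgebraicGeometry NumberField IsDedekindDomain

namespace Pool.Agent.V7H32.UO

attribute [local instance] MvPolynomial.gradedAlgebra

/-- A number field. -/
structure NF where
  /-- the field -/
  F : Type
  [isField : Field F]
  [isNumberField : NumberField F]

attribute [instance] NF.isField NF.isNumberField

/-- The field of rational numbers. -/
def NF.rat : NF := ⟨ℚ⟩

/-- The finite places of `K`: the maximal ideals of the ring of integers. -/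
abbrev NF.Place (K : NF) : Type := HeightOneSpectrum (𝓞 K.F)

/-- The place `v` lies above the prime number `p`. -/
def NF.Over (K : NF) (p : ℕ) (v : K.Place) : Prop := (p : 𝓞 K.F) ∈ v.asIdeal

/-- The prime number `p` splits completely in `L`: the number of the places of `L` above `p` is the
degree of `L`. -/
def SplitsCompletely (p : ℕ) (L : NF) : Prop :=
  {v : L.Place | L.Over p v}.ncard = Module.finrank ℚ L.F

/-- Projective `n`-space over `k`: the scheme `Proj k[x_0, ..., x_n]` with the grading by
degree. -/
noncomputable def PSpace (n : ℕ) (k : Type) [Field k] : Scheme.{0} :=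
  Proj (MvPolynomial.homogeneousSubmodule (Fin (n + 1)) k)

/-- The structure morphism of projective `n`-space. -/
noncomputable def PSpace.str (n : ℕ) (k : Type) [Field k] : PSpace n k ⟶ Spec (.of k) :=
  Proj.toSpecZero (MvPolynomial.homogeneousSubmodule (Fin (n + 1)) k) ≫
    Spec.map (CommRingCat.ofHom
      (algebraMap k (MvPolynomial.homogeneousSubmodule (Fin (n + 1)) k 0)))

/-- The `k`-scheme with the structure morphism `s` is isomorphic to a closed subscheme of
projective `n`-space over `k`. -/
def IsClosedInPSpace {k : Type} [Field k] {X : Scheme.{0}} (s : X ⟶ Spec (.of k)) (n : ℕ) : Prop :=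
  ∃ i : X ⟶ PSpace n k, IsClosedImmersion i ∧ i ≫ PSpace.str n k = s

/-- A projective variety over the field `k`, possibly singular: a geometrically integral closed
subscheme of a projective space. -/
structure ProjVar (k : Type) [Field k] where
  /-- the scheme -/
  X : Scheme.{0}
  /-- the structure morphism -/
  str : X ⟶ Spec (.of k)
  integral : GeometricallyIntegral str
  projective : ∃ n : ℕ, IsClosedInPSpace str n

/-- The projective variety is smooth of dimension `d`. -/
def ProjVar.IsSmooth {k : Type} [Field k] (X : ProjVar k) (d : ℕ) : Prop :=
  SmoothOfRelativeDimension d X.str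

/-- The projective variety is a hypersurface of dimension `d`: it has dimension `d` and is
isomorphic to a closed subscheme of projective space of dimension `d + 1`. -/
def ProjVar.IsHypersurface {k : Type} [Field k] (X : ProjVar k) (d : ℕ) : Prop :=
  IsClosedInPSpace X.str (d + 1) ∧ topologicalKrullDim X.X = d

/-- The local ring of the place `v`, as a subring of the number field `K`. -/
abbrev NF.LocalRing (K : NF) (v : K.Place) : Type := (v.valuation K.F).valuationSubring

/-- The variety `X` over `K` has good reduction at the place `v`: it is the generic fibre of a smooth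
and proper scheme over the local ring of `v`. -/
def GoodReduction {K : NF} (X : ProjVar K.F) (v : K.Place) : Prop :=
  ∃ (Y : Scheme.{0}) (s : Y ⟶ Spec (.of (K.LocalRing v))) (f : X.X ⟶ Y),
    Smooth s ∧ IsProper s ∧
    IsPullback f X.str s (Spec.map (CommRingCat.ofHom (algebraMap (K.LocalRing v) K.F)))

/-- The convex polygon with the slopes `A` lies above the convex polygon with the slopes `B` and has
the same end point: if `a 0 ≤ a 1 ≤ ...` are the elements of `A` and `b 0 ≤ b 1 ≤ ...` the elements
of `B`, then the numbers of the elements agree, the sums agree, and the sum of the `a i`, `i < k`, is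
at least the sum of the `b i`, `i < k`. -/
def Above (A B : Multiset ℚ) : Prop :=
  ∃ (r : ℕ) (a b : Fin r → ℚ), Monotone a ∧ Monotone b ∧ A = Finset.univ.val.map a ∧
    B = Finset.univ.val.map b ∧ ∑ i, a i = ∑ i, b i ∧
    ∀ k : ℕ, ∑ i ∈ Finset.univ.filter (fun i : Fin r => (i : ℕ) < k), b i ≤
      ∑ i ∈ Finset.univ.filter (fun i : Fin r => (i : ℕ) < k), a i

/-- The slopes of a tensor product: all sums of a slope in `A` and a slope in `B`. -/
def tens (A B : Multiset ℚ) : Multiset ℚ := A.bind fun a => B.map fun b => a + b

/-- The Newton slopes `A` and the Hodge slopes `B` are those of a direct summand of an object with the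
Newton slopes `A'` and the Hodge slopes `B'`: there is a complement with the Newton slopes `A''` and
the Hodge slopes `B''`, and for both summands the Newton polygon lies above the Hodge polygon. -/
def Summand (A B A' B' : Multiset ℚ) : Prop :=
  Above A B ∧ ∃ A'' B'', Above A'' B'' ∧ A' = A + A'' ∧ B' = B + B''

/-- The property `P` is true for all but finitely many prime numbers. -/
def AlmostAll (P : ℕ → Prop) : Prop := {p : ℕ | p.Prime ∧ ¬ P p}.Finite

/-- For all projective varieties `X` over all number fields `K` and all `n` the slopes of the Newton
polygons of the `n`-th intersection cohomology at the finite places (an arbitrary value is allowed at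
the finitely many bad places) and the slopes of its Hodge polygon (the Hodge-Tate weights). -/
structure Slopes where
  /-- the Newton slopes of `IH^n(X)` at the place `v` -/
  newton : ∀ {K : NF}, ProjVar K.F → ℕ → K.Place → Multiset ℚ
  /-- the Hodge slopes of `IH^n(X)` -/
  hodge : ∀ {K : NF}, ProjVar K.F → ℕ → Multiset ℚ

namespace Slopes

variable (T : Slopes)

/-- The place `v` is ordinary for `IH^n(X)`. -/
def IsOrdinary {K : NF} (X : ProjVar K.F) (n : ℕ) (v : K.Place) : Prop :=
  T.newton X n v = T.hodge X n

/-- All places above `p` are ordinary for `IH^n(X)`. -/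
def OrdinaryAbove {K : NF} (X : ProjVar K.F) (n p : ℕ) : Prop :=
  ∀ v : K.Place, K.Over p v → T.IsOrdinary X n v

/-- The cohomology in degree `n` of `X` at the place `v` is a direct summand of the cohomology in degree
`n` of `Y` at the place `w`. -/
def IsSummand {K L : NF} (X : ProjVar K.F) (v : K.Place) (Y : ProjVar L.F) (w : L.Place) (n : ℕ) :
    Prop :=
  Summand (T.newton X n v) (T.hodge X n) (T.newton Y n w) (T.hodge Y n)

/-- At the place `v` the tensor product of `H^i(X)` and `H^j(Y)` is a direct summand of
`H^(i+j)(Z)`. -/
def IsProduct {K : NF} (X Y Z : ProjVar K.F) (i j : ℕ) (v : K.Place) : Prop :=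
  Summand (tens (T.newton X i v) (T.newton Y j v)) (tens (T.hodge X i) (T.hodge Y j))
    (T.newton Z (i + j) v) (T.hodge Z (i + j))

/-- **The known facts** about Newton and Hodge polygons which are used. -/
structure Known : Prop where
  /-- there are only countably many projective varieties over number fields, up to isomorphism -/
  countable : ∃ e : ℕ → Σ K : NF, ProjVar K.F, ∀ (K : NF) (X : ProjVar K.F), ∃ k, ∀ n p,
    T.OrdinaryAbove X n p ↔ T.OrdinaryAbove (e k).2 n p
  /-- a smooth projective variety has good reduction almost everywhere -/
  good : ∀ (K : NF) (X : ProjVar K.F) (d : ℕ), X.IsSmooth d → AlmostAll fun p =>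
    ∀ v : K.Place, K.Over p v → GoodReduction X v
  /-- Mazur, Katz-Messing, Faltings: at a place of good reduction the Newton polygon lies above the
  Hodge polygon -/
  above : ∀ (K : NF) (X : ProjVar K.F) (d : ℕ), X.IsSmooth d → ∀ v : K.Place,
    GoodReduction X v → ∀ n, Above (T.newton X n v) (T.hodge X n)
  /-- the decomposition theorem: the intersection cohomology of a projective variety is a direct
  summand of the cohomology of a smooth projective variety (a resolution of singularities) -/
  decomposition : ∀ (K : NF) (X : ProjVar K.F), ∃ (Y : ProjVar K.F) (d : ℕ), Y.IsSmooth d ∧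
    ∀ n, AlmostAll fun p => ∀ v : K.Place, K.Over p v → T.IsSummand X v Y v n
  /-- Weil restriction: for `n ≥ 1` the cohomology of the Weil restriction `R` of `X` to the field of
  rational numbers contains the induced representation of `H^n(X)` as a direct summand -/
  restriction : ∀ (K : NF) (X : ProjVar K.F) (d : ℕ), X.IsSmooth d →
    ∃ (R : ProjVar NF.rat.F) (e : ℕ), R.IsSmooth e ∧
      ∀ n, 1 ≤ n → AlmostAll fun p => ∀ v : K.Place, K.Over p v →
        ∀ w : NF.rat.Place, NF.rat.Over p w → T.IsSummand X v R w n
  /-- the theorem of Künneth for the product `Z` of `X` and `Y` -/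
  kunneth : ∀ (X Y : ProjVar NF.rat.F) (d e : ℕ), X.IsSmooth d → Y.IsSmooth e →
    ∃ Z : ProjVar NF.rat.F, Z.IsSmooth (d + e) ∧
      ∀ v, GoodReduction X v → GoodReduction Y v → ∀ i j, T.IsProduct X Y Z i j v
  /-- the cohomology in degree zero -/
  zero : ∀ (K : NF) (X : ProjVar K.F) (d : ℕ), X.IsSmooth d → T.hodge X 0 = {0} ∧
    ∀ v, GoodReduction X v → T.newton X 0 v = {0}
  /-- the cohomology in degree two of the projective line -/
  line : ∃ P : ProjVar NF.rat.F, P.IsSmooth 1 ∧ T.hodge P 2 = {1}
  /-- elliptic curves `E` with multiplicative reduction at all prime numbers in the finite set `B`: as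
  the inertia groups at these primes do not act through scalars on `H^1(E)`, they act nontrivially on
  `H^1(E) = H^0(X) ⊗ H^1(E)`, so the product `Y` of `X` and `E` has bad reduction at these primes; and
  if `X` and `Y` have good reduction at a place then so has `E` (Néron-Ogg-Shafarevich) -/
  multiplicative : ∀ (X : ProjVar NF.rat.F) (d : ℕ), X.IsSmooth d → ∀ B : Set ℕ, B.Finite →
    ∃ E Y : ProjVar NF.rat.F, E.IsSmooth 1 ∧ Y.IsSmooth (d + 1) ∧ T.hodge E 1 = {0, 1} ∧
      (∀ v, GoodReduction Y v → ∀ p ∈ B, p.Prime → ¬ NF.rat.Over p v) ∧
      ∀ v, GoodReduction X v → GoodReduction Y v → GoodReduction E v ∧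
        ∀ i, T.IsProduct X E Y i 1 v
  /-- a generic projection of a smooth projective variety `Y` of dimension `d` to projective space
  of dimension `d + 1` is finite and birational onto its image `X`, a hypersurface, and the
  intersection cohomology of `X` is that of its normalisation `Y` -/
  projection : ∀ (Y : ProjVar NF.rat.F) (d : ℕ), Y.IsSmooth d →
    ∃ X : ProjVar NF.rat.F, X.IsHypersurface d ∧ ∀ n, T.hodge X n = T.hodge Y n ∧
      AlmostAll fun p => ∀ v : NF.rat.Place, NF.rat.Over p v → T.newton X n v = T.newton Y n v
  /-- Shimura-Taniyama: for every CM field `L` there is an abelian variety `A` with complex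
  multiplication by a CM field which contains `L` and is Galois over the field of rational numbers,
  whose CM type is not stable under any nontrivial element of the Galois group, and if such an `A`
  is ordinary at the places above `p` then `p` splits completely in `L` -/
  multiplication : ∀ L : NF, IsCMField L.F → ∃ (K : NF) (A : ProjVar K.F) (n : ℕ),
    AlmostAll fun p => T.OrdinaryAbove A n p → SplitsCompletely p L

/-- **The conjecture** (Q1): for every projective variety `X` over every number field and every `n`
there are infinitely many places at which `IH^n(X)` is ordinary. -/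
def OrdinaryConjecture : Prop :=
  ∀ (K : NF) (X : ProjVar K.F) (n : ℕ), {v : K.Place | T.IsOrdinary X n v}.Infinite

/-- The conjecture for the intersection cohomology in the middle degree of the hypersurfaces of even
dimension over the field of rational numbers. -/
def HypersurfaceConjecture : Prop :=
  ∀ (X : ProjVar NF.rat.F) (d : ℕ), Even d → X.IsHypersurface d →
    {v : NF.rat.Place | T.IsOrdinary X d v}.Infinite

/-- For every smooth projective variety `X` of even dimension `d` over the field of rational numbers
there is (at least) one prime number at which `X` has good reduction and the cohomology in the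
middle degree of `X` is ordinary. -/
def OnePrime : Prop :=
  ∀ (X : ProjVar NF.rat.F) (d : ℕ), Even d → X.IsSmooth d →
    ∃ v : NF.rat.Place, GoodReduction X v ∧ T.IsOrdinary X d v

/-- The set `S` of natural numbers is an infinite set of prime numbers, and for every number field
`K`, every projective variety `X` over `K` and every `n`, for all but finitely many `p` in `S` all
places of `K` above `p` are ordinary for `IH^n(X)`. -/
def IsUniversal (S : Set ℕ) : Prop :=
  S.Infinite ∧ (∀ p ∈ S, p.Prime) ∧
    ∀ (K : NF) (X : ProjVar K.F) (n : ℕ), {p ∈ S | ¬ T.OrdinaryAbove X n p}.Finite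

end Slopes

end Pool.Agent.V7H32.UO
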