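import Pool.Agent.V7H32.UO.Poly
import Pool.Agent.V7H32.UO.Arith

/-!
# One set of prime numbers for all varieties over all number fields
-/

set_option autoImplicit false

open NumberField IsDedekindDomain

namespace Pool.Agent.V7H32.UO.Slopes

variable {T : Slopes}

lemma exists_prime_of {P : ℕ → Prop} (h : AlmostAll P) : ∃ p : ℕ, p.Prime ∧ P p := by
  by_contra hc
  push Not at hc
  have h1 : {p : ℕ | p.Prime} ⊆ {p : ℕ | p.Prime ∧ ¬ P p} := fun p hp => ⟨hp, hc p hp⟩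
  exact Nat.infinite_setOfPred_prime (h.subset h1)

/-- Two varieties at once. -/
lemma pair (hT : T.Known) {X Y : ProjVar NF.rat.F} {d e : ℕ} (hX : X.IsSmooth d)
    (hY : Y.IsSmooth e) (i j : ℕ) (hi : T.hodge X i ≠ 0) (hj : T.hodge Y j ≠ 0) :
    ∃ Z : ProjVar NF.rat.F, Z.IsSmooth (d + e) ∧ T.hodge Z (i + j) ≠ 0 ∧
      AlmostAll fun p => T.OrdinaryAbove Z (i + j) p →
        T.OrdinaryAbove X i p ∧ T.OrdinaryAbove Y j p := by
  obtain ⟨Z, hZ, h⟩ := hT.kunneth X Y d e hX hY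
  have hg := (hT.good _ X d hX).and (hT.good _ Y e hY)
  refine ⟨Z, hZ, ?_, ?_⟩
  · obtain ⟨p, hp, h1⟩ := exists_prime_of hg
    obtain ⟨v, hv⟩ := exists_above NF.rat hp
    exact (h v (h1.1 v hv) (h1.2 v hv) i j).ne_zero (tens_ne_zero hi hj)
  · refine hg.mono ?_
    rintro p hp ⟨h1, h2⟩ h4
    have h5 : ∀ v : NF.rat.Place, NF.rat.Over p v →
        T.IsOrdinary X i v ∧ T.IsOrdinary Y j v := fun v hv =>
      tens_eq (hT.above _ X d hX v (h1 v hv) i) (hT.above _ Y e hY v (h2 v hv) j) hi hj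
        (Summand.eq (h v (h1 v hv) (h2 v hv) i j) (h4 v hv))
    exact ⟨fun v hv => (h5 v hv).1, fun v hv => (h5 v hv).2⟩

/-- Reduction to the middle degree. -/
lemma to_middle (hT : T.Known) : ∀ (m : ℕ) (X : ProjVar NF.rat.F) (d i : ℕ), X.IsSmooth d →
    (i = d + m ∨ d = i + m) → T.hodge X i ≠ 0 →
    ∃ (Z : ProjVar NF.rat.F) (e : ℕ), Z.IsSmooth e ∧ T.hodge Z e ≠ 0 ∧
      AlmostAll fun p => T.OrdinaryAbove Z e p → T.OrdinaryAbove X i p := by
  obtain ⟨P, hP, hP2⟩ := hT.line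
  have hP0 : T.hodge P 0 ≠ 0 := by
    rw [(hT.zero _ P 1 hP).1]
    exact Multiset.singleton_ne_zero _
  have hP2' : T.hodge P 2 ≠ 0 := by
    rw [hP2]
    exact Multiset.singleton_ne_zero _
  intro m
  induction m with
  | zero =>
    intro X d i hX h h0
    have : i = d := by omega
    subst this
    exact ⟨X, i, hX, h0, almostAll_of fun p _ h => h⟩
  | succ m ih =>
    intro X d i hX h h0
    rcases h with h | h
    · obtain ⟨Z, hZ, hZ0, hZp⟩ := pair hT hX hP i 0 h0 hP0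
      obtain ⟨Z', e, h1, h2, h3⟩ := ih Z (d + 1) (i + 0) hZ (Or.inl (by omega)) hZ0
      exact ⟨Z', e, h1, h2, (hZp.and h3).mono fun p _ h4 h5 => (h4.1 (h4.2 h5)).1⟩
    · obtain ⟨Z, hZ, hZ0, hZp⟩ := pair hT hX hP i 2 h0 hP2'
      obtain ⟨Z', e, h1, h2, h3⟩ := ih Z (d + 1) (i + 2) hZ (Or.inr (by omega)) hZ0
      exact ⟨Z', e, h1, h2, (hZp.and h3).mono fun p _ h4 h5 => (h4.1 (h4.2 h5)).1⟩

/-- Reduction to the middle degree, with a given parity. -/
lemma to_middle' (hT : T.Known) (P : ℕ → Prop) (hP : ∀ e, P e ∨ P (e + 1))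
    (X : ProjVar NF.rat.F) (d i : ℕ) (hX : X.IsSmooth d) (h0 : T.hodge X i ≠ 0) :
    ∃ (Z : ProjVar NF.rat.F) (e : ℕ), P e ∧ Z.IsSmooth e ∧ T.hodge Z e ≠ 0 ∧
      AlmostAll fun p => T.OrdinaryAbove Z e p → T.OrdinaryAbove X i p := by
  have h : ∃ (Z : ProjVar NF.rat.F) (e : ℕ), Z.IsSmooth e ∧ T.hodge Z e ≠ 0 ∧
      AlmostAll fun p => T.OrdinaryAbove Z e p → T.OrdinaryAbove X i p := by
    rcases le_total d i with h | h
    · exact to_middle hT (i - d) X d i hX (Or.inl (by omega)) h0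
    · exact to_middle hT (d - i) X d i hX (Or.inr (by omega)) h0
  obtain ⟨Z, e, h1, h2, h3⟩ := h
  rcases hP e with h4 | h4
  · exact ⟨Z, e, h4, h1, h2, h3⟩
  · obtain ⟨E, -, hE, -, hE1, -⟩ := hT.multiplicative Z e h1 ∅ Set.finite_empty
    obtain ⟨Z', h5, h6, h7⟩ := pair hT h1 hE e 1 h2 (by
      rw [hE1]
      exact Multiset.cons_ne_zero)
    exact ⟨Z', e + 1, h4, h5, h6, (h3.and h7).mono fun p _ h8 h9 => h8.1 (h8.2 h9).1⟩

/-- If the Hodge polygon is trivial then almost all places are ordinary. -/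
lemma ordinary_of_zero (hT : T.Known) {X : ProjVar NF.rat.F} {d i : ℕ} (hX : X.IsSmooth d)
    (h0 : T.hodge X i = 0) : AlmostAll fun p => T.OrdinaryAbove X i p := by
  refine (hT.good _ X d hX).mono fun p _ h v hv => ?_
  have h1 := hT.above _ X d hX v (h v hv) i
  unfold IsOrdinary
  rw [h0] at h1 ⊢
  exact h1.eq_of_zero

/-- Finitely many smooth varieties over the field of rational numbers at once. -/
lemma finitely_many (hT : T.Known) (X : ℕ → ProjVar NF.rat.F) (d i : ℕ → ℕ)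
    (hX : ∀ k, (X k).IsSmooth (d k)) (N : ℕ) :
    ∃ (Z : ProjVar NF.rat.F) (e m : ℕ), Z.IsSmooth e ∧ T.hodge Z m ≠ 0 ∧
      AlmostAll fun p => T.OrdinaryAbove Z m p →
        ∀ k < N, T.OrdinaryAbove (X k) (i k) p := by
  induction N with
  | zero =>
    obtain ⟨P, hP, hP2⟩ := hT.line
    refine ⟨P, 1, 2, hP, ?_, almostAll_of fun p _ _ k hk => absurd hk (Nat.not_lt_zero _)⟩
    rw [hP2]
    exact Multiset.singleton_ne_zero _
  | succ N ih =>
    obtain ⟨Z, e, m, hZ, h0, h⟩ := ih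
    by_cases hN : T.hodge (X N) (i N) = 0
    · refine ⟨Z, e, m, hZ, h0, (h.and (ordinary_of_zero hT (hX N) hN)).mono ?_⟩
      intro p _ h1 h2 k hk
      rcases Nat.lt_succ_iff_lt_or_eq.1 hk with h3 | h3
      · exact h1.1 h2 k h3
      · subst h3
        exact h1.2
    · obtain ⟨Z', hZ', h0', h'⟩ := pair hT hZ (hX N) m (i N) h0 hN
      refine ⟨Z', e + d N, m + i N, hZ', h0', (h.and h').mono ?_⟩
      intro p _ h1 h2 k hk
      rcases Nat.lt_succ_iff_lt_or_eq.1 hk with h3 | h3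
      · exact h1.1 (h1.2 h2).1 k h3
      · subst h3
        exact (h1.2 h2).2

/-- Descent to smooth varieties over the field of rational numbers. -/
lemma descend (hT : T.Known) {K : NF} (X : ProjVar K.F) (n : ℕ) :
    ∃ (Y : ProjVar NF.rat.F) (d i : ℕ), Y.IsSmooth d ∧
      AlmostAll fun p => T.OrdinaryAbove Y i p → T.OrdinaryAbove X n p := by
  obtain ⟨Y, d, hY, h⟩ := hT.decomposition K X
  rcases Nat.eq_zero_or_pos n with hn | hn
  · subst hn
    obtain ⟨P, hP, hP2⟩ := hT.line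
    refine ⟨P, 1, 0, hP, ((h 0).and (hT.good K Y d hY)).mono ?_⟩
    rintro p _ ⟨h1, h2⟩ _ v hv
    refine Summand.eq (h1 v hv) ?_
    rw [(hT.zero K Y d hY).2 v (h2 v hv), (hT.zero K Y d hY).1]
  · obtain ⟨R, e, hR, h'⟩ := hT.restriction K Y d hY
    refine ⟨R, e, n, hR, ((h n).and (h' n hn)).mono ?_⟩
    rintro p hp ⟨h1, h2⟩ h3 v hv
    obtain ⟨w, hw⟩ := exists_above NF.rat hp
    exact Summand.eq (h1 v hv) (Summand.eq (h2 v hv w hw) (h3 w hw))

/-- Infinitely many prime numbers from infinitely many places of the field of rational numbers. -/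
lemma infinite_primes {X : ProjVar NF.rat.F} {n : ℕ}
    (h : {v : NF.rat.Place | T.IsOrdinary X n v}.Infinite) :
    {p : ℕ | p.Prime ∧ T.OrdinaryAbove X n p}.Infinite := by
  intro hf
  apply h
  have h1 : {v : NF.rat.Place | T.IsOrdinary X n v} ⊆
      ⋃ p ∈ {p : ℕ | p.Prime ∧ T.OrdinaryAbove X n p}, {v : NF.rat.Place | NF.rat.Over p v} := by
    intro v hv
    obtain ⟨p, hp, hpv⟩ := exists_over NF.rat v
    refine Set.mem_biUnion (x := p) ⟨hp, fun w hw => ?_⟩ hpv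
    rw [rat_unique hp hw hpv]
    exact hv
  refine (hf.biUnion fun p hp => ?_).subset h1
  refine Set.Subsingleton.finite fun v hv w hw => ?_
  exact rat_unique hp.1 hv hw

/-- Infinitely many places from infinitely many prime numbers. -/
lemma infinite_places {K : NF} {X : ProjVar K.F} {n : ℕ} {S : Set ℕ} (hS : S.Infinite)
    (hp : ∀ p ∈ S, p.Prime) (h : {p ∈ S | ¬ T.OrdinaryAbove X n p}.Finite) :
    {v : K.Place | T.IsOrdinary X n v}.Infinite := by
  have h1 : (S \ {p ∈ S | ¬ T.OrdinaryAbove X n p}).Infinite := hS.sdiff h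
  obtain ⟨v₀, -⟩ := exists_above K Nat.prime_two
  have : Nonempty K.Place := ⟨v₀⟩
  choose! f hf using fun (p : ℕ) (hp : p.Prime) => exists_above K hp
  have h2 : Set.InjOn f (S \ {p ∈ S | ¬ T.OrdinaryAbove X n p}) := by
    intro p hpS q hqS hpq
    have e1 := hf p (hp p hpS.1)
    have e2 := hf q (hp q hqS.1)
    rw [hpq] at e1
    exact over_unique K (hp p hpS.1) (hp q hqS.1) e1 e2
  refine (h1.image h2).mono ?_
  rintro _ ⟨p, hpS, rfl⟩
  have h3 : T.OrdinaryAbove X n p := by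
    by_contra hc
    exact hpS.2 ⟨hpS.1, hc⟩
  exact h3 _ (hf p (hp p hpS.1))

lemma almostAll_forall {P : ℕ → ℕ → Prop} (h : ∀ k, AlmostAll (P k)) (N : ℕ) :
    AlmostAll fun p => ∀ k ≤ N, P k p := by
  induction N with
  | zero => exact (h 0).mono fun p _ h k hk => by rwa [Nat.le_zero.1 hk]
  | succ N ih =>
    refine (ih.and (h (N + 1))).mono fun p _ h k hk => ?_
    rcases Nat.le_succ_iff.1 hk with h1 | h1
    · exact h.1 k h1
    · rw [h1]
      exact h.2

lemma conjecture_of_universal (h : ∃ S, T.IsUniversal S) : T.OrdinaryConjecture := by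
  obtain ⟨S, hS, hp, h⟩ := h
  exact fun K X n => infinite_places hS hp (h K X n)

/-- A universal set from the middle cohomology of smooth varieties of a given parity. -/
lemma universal_of (hT : T.Known) (P : ℕ → Prop) (hP : ∀ e, P e ∨ P (e + 1))
    (h : ∀ (Z : ProjVar NF.rat.F) (e : ℕ), P e → Z.IsSmooth e → T.hodge Z e ≠ 0 →
      {p : ℕ | p.Prime ∧ T.OrdinaryAbove Z e p}.Infinite) :
    ∃ S, T.IsUniversal S := by
  obtain ⟨e, he⟩ := hT.countable
  choose Y d i hY hd using fun k : ℕ => descend hT (e k.unpair.1).2 k.unpair.2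
  let G : ℕ → ℕ → Prop := fun k p => T.OrdinaryAbove (e k.unpair.1).2 k.unpair.2 p
  have key : ∀ N, {p : ℕ | p.Prime ∧ ∀ k ≤ N, G k p}.Infinite := by
    intro N
    obtain ⟨Z, c, m, hZ, h0, h1⟩ := finitely_many hT Y d i hY (N + 1)
    obtain ⟨Z', c', hc', hZ', h0', h2⟩ := to_middle' hT P hP Z c m hZ h0
    have h3 := almostAll_forall hd N
    have h4 := (h1.and h2).and h3
    refine ((h Z' c' hc' hZ' h0').sdiff h4).mono ?_
    rintro p ⟨⟨hp, hpo⟩, hpn⟩
    refine ⟨hp, ?_⟩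
    by_contra hc
    apply hpn
    refine ⟨hp, fun h5 => hc fun k hk => ?_⟩
    exact h5.2 k hk (h5.1.1 (h5.1.2 hpo) k (by omega))
  obtain ⟨S, hS, hp, hG⟩ := diagonal G key
  refine ⟨S, hS, hp, fun K X n => ?_⟩
  obtain ⟨k, hk⟩ := he K X
  have h5 := hG (Nat.pair k n)
  refine h5.subset ?_
  rintro p ⟨hpS, hpn⟩
  refine ⟨hpS, fun h6 => hpn ((hk n p).2 ?_)⟩
  simp only [G] at h6
  rw [Nat.unpair_pair] at h6
  exact h6

lemma even_or (e : ℕ) : Even e ∨ Even (e + 1) := by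
  rcases Nat.even_or_odd e with h | h
  · exact Or.inl h
  · exact Or.inr h.add_one

lemma odd_or (e : ℕ) : Odd e ∨ Odd (e + 1) := by
  rcases Nat.even_or_odd e with h | h
  · exact Or.inr h.add_one
  · exact Or.inl h

lemma universal_of_hypersurface (hT : T.Known) (h : T.HypersurfaceConjecture) :
    ∃ S, T.IsUniversal S := by
  refine universal_of hT (fun e => Even e) even_or fun Z e he hZ _ => ?_
  obtain ⟨X, hX, hp⟩ := hT.projection Z e hZ
  have h1 := infinite_primes (h X e he hX)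
  refine (h1.sdiff (hp e).2).mono ?_
  rintro p ⟨⟨hp1, hp2⟩, hp3⟩
  refine ⟨hp1, fun v hv => ?_⟩
  have h4 : ∀ v : NF.rat.Place, NF.rat.Over p v → T.newton X e v = T.newton Z e v := by
    by_contra hc
    exact hp3 ⟨hp1, hc⟩
  have h5 : T.newton X e v = T.hodge X e := hp2 v hv
  rw [h4 v hv, (hp e).1] at h5
  exact h5

/-- One prime number is as good as infinitely many. -/
lemma universal_of_onePrime (hT : T.Known) (h : T.OnePrime) : ∃ S, T.IsUniversal S := by
  refine universal_of hT (fun e => Odd e) odd_or fun Z e he hZ h0 => ?_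
  intro hf
  obtain ⟨E, Y, hE, hY, hE1, hB, hEY⟩ := hT.multiplicative Z e hZ
    ({p : ℕ | p.Prime ∧ T.OrdinaryAbove Z e p} ∪
      {p : ℕ | p.Prime ∧ ¬ ∀ v : NF.rat.Place, NF.rat.Over p v → GoodReduction Z v})
    (hf.union (hT.good _ Z e hZ))
  obtain ⟨v, hv, hvo⟩ := h Y (e + 1) he.add_one hY
  obtain ⟨p, hp, hpv⟩ := exists_over NF.rat v
  have h1 : p ∉ ({p : ℕ | p.Prime ∧ T.OrdinaryAbove Z e p} ∪
      {p : ℕ | p.Prime ∧ ¬ ∀ v : NF.rat.Place, NF.rat.Over p v → GoodReduction Z v}) :=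
    fun h2 => hB v hv p h2 hp hpv
  have h2 : ∀ v : NF.rat.Place, NF.rat.Over p v → GoodReduction Z v := by
    by_contra hc
    exact h1 (Or.inr ⟨hp, hc⟩)
  obtain ⟨h3, h4⟩ := hEY v (h2 v hpv) hv
  have h5 := Summand.eq (h4 e) hvo
  have h6 := (tens_eq (hT.above _ Z e hZ v (h2 v hpv) e) (hT.above _ E 1 hE v h3 1) h0
    (by rw [hE1]; exact Multiset.cons_ne_zero) h5).1
  refine h1 (Or.inl ⟨hp, fun w hw => ?_⟩)
  rw [rat_unique hp hw hpv]
  exact h6

lemma onePrime_of_conjecture (hT : T.Known) (h : T.OrdinaryConjecture) : T.OnePrime := by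
  intro X d _ hX
  have h1 := (infinite_primes (h NF.rat X d)).sdiff (hT.good _ X d hX)
  obtain ⟨p, ⟨hp, hpo⟩, hpn⟩ := h1.nonempty
  obtain ⟨v, hv⟩ := exists_above NF.rat hp
  refine ⟨v, ?_, hpo v hv⟩
  by_contra hc
  exact hpn ⟨hp, fun h2 => hc (h2 v hv)⟩

/-- **The theorem.** -/
theorem main (hT : T.Known) :
    (T.OrdinaryConjecture ↔ T.HypersurfaceConjecture) ∧
    (T.OrdinaryConjecture ↔ T.OnePrime) ∧
    (T.OrdinaryConjecture ↔ ∃ S, T.IsUniversal S) ∧
    ∀ S, T.IsUniversal S → ∀ L : NF, IsCMField L.F → {p ∈ S | ¬ SplitsCompletely p L}.Finite := by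
  refine ⟨⟨fun h X d _ _ => h NF.rat X d,
      fun h => conjecture_of_universal (universal_of_hypersurface hT h)⟩,
    ⟨onePrime_of_conjecture hT, fun h => conjecture_of_universal (universal_of_onePrime hT h)⟩,
    ⟨fun h => universal_of_onePrime hT (onePrime_of_conjecture hT h), conjecture_of_universal⟩,
    ?_⟩
  rintro S ⟨hS, hp, h⟩ L hL
  obtain ⟨K, A, n, hA⟩ := hT.multiplication L hL
  refine ((h K A n).union hA).subset ?_
  rintro p ⟨hpS, hpn⟩
  by_cases hc : T.OrdinaryAbove A n p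
  · exact Or.inr ⟨hp p hpS, fun h' => hpn (h' hc)⟩
  · exact Or.inl ⟨hpS, hc⟩

end Pool.Agent.V7H32.UO.Slopes
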