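import Pool.Agent.V7H32.UO.Defs
import Pool.Agent.Y163.MX.Kar

/-!
# Polygons: second moments, direct sums and tensor products
-/

set_option autoImplicit false

namespace Pool.Agent.V7H32.UO

/-- The second moment. -/
def mom (A : Multiset ℚ) : ℚ := (A.map fun a => a ^ 2).sum

lemma mom_add (A B : Multiset ℚ) : mom (A + B) = mom A + mom B := by
  unfold mom
  rw [Multiset.map_add, Multiset.sum_add]

/-- The second moment of the upper polygon is at most the one of the lower polygon, with equality
only if the polygons agree. -/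
lemma mom_le {A B : Multiset ℚ} (h : Above A B) : mom A ≤ mom B ∧ (mom B ≤ mom A → A = B) := by
  obtain ⟨r, a, b, ha, -, rfl, rfl, hs, hk⟩ := h
  have h1 := Pool.Agent.Y163.MX.karamata (n := r) (fun i => (a i : ℝ)) (fun i => (b i : ℝ))
    (fun i j hij => by
      change (a i : ℝ) ≤ (a j : ℝ)
      exact_mod_cast ha hij)
    (fun k => by have := hk k; exact_mod_cast this) (by exact_mod_cast hs.symm) 0
  have h2 : ∑ i, (a i) ^ 2 + ∑ i, (b i - a i) ^ 2 ≤ ∑ i, (b i) ^ 2 := by
    have h3 : (∑ i, ((a i : ℝ)) ^ 2 + ∑ i, ((b i : ℝ) - a i) ^ 2) ≤ ∑ i, ((b i : ℝ)) ^ 2 := by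
      have e1 : ∑ i, (2 * (a i : ℝ) - 0) ^ 2 = 4 * ∑ i, (a i : ℝ) ^ 2 := by
        rw [Finset.mul_sum]
        exact Finset.sum_congr rfl fun i _ => by ring
      have e2 : ∑ i, (2 * (b i : ℝ) - 0) ^ 2 = 4 * ∑ i, (b i : ℝ) ^ 2 := by
        rw [Finset.mul_sum]
        exact Finset.sum_congr rfl fun i _ => by ring
      rw [e1, e2] at h1
      linarith
    exact_mod_cast h3
  have m1 : mom (Finset.univ.val.map a) = ∑ i, (a i) ^ 2 := by
    unfold mom
    rw [Multiset.map_map]
    rfl
  have m2 : mom (Finset.univ.val.map b) = ∑ i, (b i) ^ 2 := by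
    unfold mom
    rw [Multiset.map_map]
    rfl
  rw [m1, m2]
  have h4 : 0 ≤ ∑ i, (b i - a i) ^ 2 := Finset.sum_nonneg fun i _ => sq_nonneg _
  refine ⟨by linarith, fun h5 => ?_⟩
  have h6 : ∑ i, (b i - a i) ^ 2 = 0 := le_antisymm (by linarith) h4
  have h7 := (Finset.sum_eq_zero_iff_of_nonneg fun i _ => sq_nonneg _).1 h6
  refine congrArg (fun f => Finset.univ.val.map f) (funext fun i => ?_)
  have h8 := h7 i (Finset.mem_univ i)
  have h9 := pow_eq_zero_iff (two_ne_zero) |>.1 h8
  linarith

lemma Above.card_eq {A B : Multiset ℚ} (h : Above A B) :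
    Multiset.card A = Multiset.card B := by
  obtain ⟨r, a, b, ha, -, rfl, rfl, hs, hk⟩ := h
  simp

lemma Above.sum_eq {A B : Multiset ℚ} (h : Above A B) : A.sum = B.sum := by
  obtain ⟨r, a, b, ha, -, rfl, rfl, hs, hk⟩ := h
  exact hs

/-- A direct summand of an ordinary object is ordinary. -/
lemma Summand.eq {A B A' B' : Multiset ℚ} (h : Summand A B A' B') (he : A' = B') : A = B := by
  obtain ⟨h1, A'', B'', h2, h3, h4⟩ := h
  have e1 : mom A' = mom A + mom A'' := by rw [h3, mom_add]
  have e2 : mom B' = mom B + mom B'' := by rw [h4, mom_add]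
  rw [he, e2] at e1
  refine (mom_le h1).2 ?_
  have := (mom_le h2).1
  linarith

lemma mom_tens (A B : Multiset ℚ) : mom (tens A B) =
    Multiset.card B * mom A + 2 * (A.sum * B.sum) + Multiset.card A * mom B := by
  unfold tens mom
  rw [Multiset.map_bind, Multiset.sum_bind]
  induction A using Multiset.induction_on with
  | empty => simp
  | cons a A ih =>
    rw [Multiset.map_cons, Multiset.sum_cons, ih, Multiset.map_cons, Multiset.sum_cons,
      Multiset.sum_cons, Multiset.card_cons, Multiset.map_map]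
    have h : (B.map ((fun a => a ^ 2) ∘ fun b => a + b)).sum =
        Multiset.card B * a ^ 2 + 2 * (a * B.sum) + (B.map fun b => b ^ 2).sum := by
      clear ih
      induction B using Multiset.induction_on with
      | empty => simp
      | cons b B ih =>
        rw [Multiset.map_cons, Multiset.sum_cons, ih, Multiset.sum_cons, Multiset.card_cons,
          Multiset.map_cons, Multiset.sum_cons]
        simp only [Function.comp]
        push_cast
        ring
    rw [h]
    push_cast
    ring

/-- If the tensor product of two nonzero objects is ordinary, then both are ordinary. -/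
lemma tens_eq {A B C D : Multiset ℚ} (hAB : Above A B) (hCD : Above C D) (hB : B ≠ 0)
    (hD : D ≠ 0) (h : tens A C = tens B D) : A = B ∧ C = D := by
  have h1 := congrArg mom h
  rw [mom_tens, mom_tens, hAB.card_eq, hCD.card_eq, hAB.sum_eq, hCD.sum_eq] at h1
  have b : (0 : ℚ) < Multiset.card B := by
    exact_mod_cast Multiset.card_pos.2 hB
  have d : (0 : ℚ) < Multiset.card D := by
    exact_mod_cast Multiset.card_pos.2 hD
  have h2 := (mom_le hAB).1
  have h3 := (mom_le hCD).1
  have h4 : (Multiset.card D : ℚ) * (mom B - mom A) + Multiset.card B * (mom D - mom C) = 0 := by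
    linarith
  have h5 : 0 ≤ (Multiset.card D : ℚ) * (mom B - mom A) := mul_nonneg d.le (by linarith)
  have h6 : 0 ≤ (Multiset.card B : ℚ) * (mom D - mom C) := mul_nonneg b.le (by linarith)
  have h7 : (Multiset.card D : ℚ) * (mom B - mom A) = 0 := by linarith
  have h8 : (Multiset.card B : ℚ) * (mom D - mom C) = 0 := by linarith
  refine ⟨(mom_le hAB).2 ?_, (mom_le hCD).2 ?_⟩
  · have := (mul_eq_zero.1 h7).resolve_left d.ne'
    linarith
  · have := (mul_eq_zero.1 h8).resolve_left b.ne'
    linarith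

lemma tens_ne_zero {A B : Multiset ℚ} (hA : A ≠ 0) (hB : B ≠ 0) : tens A B ≠ 0 := by
  obtain ⟨a, ha⟩ := Multiset.exists_mem_of_ne_zero hA
  obtain ⟨b, hb⟩ := Multiset.exists_mem_of_ne_zero hB
  intro h
  have h1 : a + b ∈ tens A B :=
    Multiset.mem_bind.2 ⟨a, ha, Multiset.mem_map.2 ⟨b, hb, rfl⟩⟩
  rw [h] at h1
  exact Multiset.notMem_zero _ h1

lemma Summand.ne_zero {A B A' B' : Multiset ℚ} (h : Summand A B A' B') (hB : B ≠ 0) :
    B' ≠ 0 := by
  obtain ⟨-, A'', B'', -, -, h4⟩ := h
  rw [h4]
  intro h5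
  have h6 := congrArg Multiset.card h5
  rw [Multiset.card_add, Multiset.card_zero] at h6
  exact hB (Multiset.card_eq_zero.1 (by omega))

lemma Above.eq_of_zero {A : Multiset ℚ} (h : Above A 0) : A = 0 :=
  Multiset.card_eq_zero.1 (by rw [h.card_eq, Multiset.card_zero])

end Pool.Agent.V7H32.UO
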